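import Mathlib

namespace Pool.Agent.FS.TopThree

/-- `d` is the shift attached to the value `p`. -/
def R (u A B C a b c p d : ℚ) : Prop :=
  (-u ≤ p ∧ p ≤ u ∧ d = 0) ∨ (p = A ∧ d = a) ∨ (p = -A ∧ d = -a) ∨ (p = B ∧ d = b) ∨
    (p = -B ∧ d = -b) ∨ (p = C ∧ d = c) ∨ (p = -C ∧ d = -c)

theorem core1 {u A B C p q r d e f : ℚ} (hu : 0 < u) (hA : 2 * u < A)
    (h1 : u < B - A) (h2 : u < C - B)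
    (hp : R u A B C A B C p d) (hq : R u A B C A B C q e) (hr : R u A B C A B C r f)
    (h : p + q = r) : d + e = f := by
  rcases hp with ⟨p1, p2, hd⟩ | ⟨p1, hd⟩ | ⟨p1, hd⟩ | ⟨p1, hd⟩ | ⟨p1, hd⟩ | ⟨p1, hd⟩ | ⟨p1, hd⟩ <;>
  rcases hq with ⟨q1, q2, he⟩ | ⟨q1, he⟩ | ⟨q1, he⟩ | ⟨q1, he⟩ | ⟨q1, he⟩ | ⟨q1, he⟩ | ⟨q1, he⟩ <;>
  rcases hr with ⟨r1, r2, hf⟩ | ⟨r1, hf⟩ | ⟨r1, hf⟩ | ⟨r1, hf⟩ | ⟨r1, hf⟩ | ⟨r1, hf⟩ | ⟨r1, hf⟩ <;>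
  linarith

theorem core2 {u A B C p q r d e f : ℚ} (hu : 0 < u) (hA : 2 * u < A) (hAB : A ≤ B) (hBC : B ≤ C)
    (h1 : B - A ≤ u) (h2 : C - B ≤ u)
    (hp : R u A B C 1 1 1 p d) (hq : R u A B C 1 1 1 q e) (hr : R u A B C 1 1 1 r f)
    (h : p + q = r) : d + e = f := by
  rcases hp with ⟨p1, p2, hd⟩ | ⟨p1, hd⟩ | ⟨p1, hd⟩ | ⟨p1, hd⟩ | ⟨p1, hd⟩ | ⟨p1, hd⟩ | ⟨p1, hd⟩ <;>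
  rcases hq with ⟨q1, q2, he⟩ | ⟨q1, he⟩ | ⟨q1, he⟩ | ⟨q1, he⟩ | ⟨q1, he⟩ | ⟨q1, he⟩ | ⟨q1, he⟩ <;>
  rcases hr with ⟨r1, r2, hf⟩ | ⟨r1, hf⟩ | ⟨r1, hf⟩ | ⟨r1, hf⟩ | ⟨r1, hf⟩ | ⟨r1, hf⟩ | ⟨r1, hf⟩ <;>
  linarith

theorem core3 {u A B C p q r d e f : ℚ} (hu : 0 < u) (hA : 2 * u < A) (hAB : A ≤ B)
    (h1 : B - A ≤ u) (h2 : u < C - B)
    (hp : R u A B C 1 1 2 p d) (hq : R u A B C 1 1 2 q e) (hr : R u A B C 1 1 2 r f)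
    (h : p + q = r) : d + e = f := by
  rcases hp with ⟨p1, p2, hd⟩ | ⟨p1, hd⟩ | ⟨p1, hd⟩ | ⟨p1, hd⟩ | ⟨p1, hd⟩ | ⟨p1, hd⟩ | ⟨p1, hd⟩ <;>
  rcases hq with ⟨q1, q2, he⟩ | ⟨q1, he⟩ | ⟨q1, he⟩ | ⟨q1, he⟩ | ⟨q1, he⟩ | ⟨q1, he⟩ | ⟨q1, he⟩ <;>
  rcases hr with ⟨r1, r2, hf⟩ | ⟨r1, hf⟩ | ⟨r1, hf⟩ | ⟨r1, hf⟩ | ⟨r1, hf⟩ | ⟨r1, hf⟩ | ⟨r1, hf⟩ <;>
  linarith

theorem core4 {u A B C p q r d e f : ℚ} (hu : 0 < u) (hA : 2 * u < A) (hBC : B ≤ C)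
    (h1 : u < B - A) (h2 : C - B ≤ u)
    (hp : R u A B C 1 2 2 p d) (hq : R u A B C 1 2 2 q e) (hr : R u A B C 1 2 2 r f)
    (h : p + q = r) : d + e = f := by
  rcases hp with ⟨p1, p2, hd⟩ | ⟨p1, hd⟩ | ⟨p1, hd⟩ | ⟨p1, hd⟩ | ⟨p1, hd⟩ | ⟨p1, hd⟩ | ⟨p1, hd⟩ <;>
  rcases hq with ⟨q1, q2, he⟩ | ⟨q1, he⟩ | ⟨q1, he⟩ | ⟨q1, he⟩ | ⟨q1, he⟩ | ⟨q1, he⟩ | ⟨q1, he⟩ <;>
  rcases hr with ⟨r1, r2, hf⟩ | ⟨r1, hf⟩ | ⟨r1, hf⟩ | ⟨r1, hf⟩ | ⟨r1, hf⟩ | ⟨r1, hf⟩ | ⟨r1, hf⟩ <;>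
  linarith

theorem core {u A B C : ℚ} (hu : 0 < u) (hA : 2 * u < A) (hAB : A ≤ B) (hBC : B ≤ C) :
    ∃ a b c : ℚ, 0 < a ∧ 0 < b ∧ 0 < c ∧ ∀ p q r d e f : ℚ, R u A B C a b c p d →
      R u A B C a b c q e → R u A B C a b c r f → p + q = r → d + e = f := by
  rcases lt_or_ge u (B - A) with h1 | h1 <;> rcases lt_or_ge u (C - B) with h2 | h2
  · exact ⟨A, B, C, by linarith, by linarith, by linarith,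
      fun _ _ _ _ _ _ hp hq hr h => core1 hu hA h1 h2 hp hq hr h⟩
  · exact ⟨1, 2, 2, by norm_num, by norm_num, by norm_num,
      fun _ _ _ _ _ _ hp hq hr h => core4 hu hA hBC h1 h2 hp hq hr h⟩
  · exact ⟨1, 1, 2, by norm_num, by norm_num, by norm_num,
      fun _ _ _ _ _ _ hp hq hr h => core3 hu hA hAB h1 h2 hp hq hr h⟩
  · exact ⟨1, 1, 1, by norm_num, by norm_num, by norm_num,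
      fun _ _ _ _ _ _ hp hq hr h => core2 hu hA hAB hBC h1 h2 hp hq hr h⟩

end Pool.Agent.FS.TopThree
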