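import Mathlib

namespace Pool.Agent.FS.TopThree

/-- The tuple `1, …, 1, 3, 4, 5, 6, …, 6` as a function of the index. -/
def w (i j : ℕ) : ℚ :=
  if j ≤ i then 1 else if j = i + 1 then 3 else if j = i + 2 then 4 else if j = i + 3 then 5 else 6

theorem w_le {i j : ℕ} (h : j ≤ i) : w i j = 1 := by simp [w, h]
theorem w_one (i : ℕ) : w i (i + 1) = 3 := by simp [w]
theorem w_two (i : ℕ) : w i (i + 2) = 4 := by simp [w]
theorem w_three (i : ℕ) : w i (i + 3) = 5 := by simp [w]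
theorem w_ge {i j : ℕ} (h : i + 4 ≤ j) : w i j = 6 := by
  unfold w
  rw [if_neg (by omega), if_neg (by omega), if_neg (by omega), if_neg (by omega)]

theorem w_cases (i j : ℕ) : (j ≤ i ∧ w i j = 1) ∨ (j = i + 1 ∧ w i j = 3) ∨
    (j = i + 2 ∧ w i j = 4) ∨ (j = i + 3 ∧ w i j = 5) ∨ (i + 4 ≤ j ∧ w i j = 6) := by
  rcases (by omega : j ≤ i ∨ j = i + 1 ∨ j = i + 2 ∨ j = i + 3 ∨ i + 4 ≤ j) with h | h | h | h | h
  · exact Or.inl ⟨h, w_le h⟩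
  · exact Or.inr (Or.inl ⟨h, h ▸ w_one i⟩)
  · exact Or.inr (Or.inr (Or.inl ⟨h, h ▸ w_two i⟩))
  · exact Or.inr (Or.inr (Or.inr (Or.inl ⟨h, h ▸ w_three i⟩)))
  · exact Or.inr (Or.inr (Or.inr (Or.inr ⟨h, w_ge h⟩)))

theorem w_mono {i j k : ℕ} (h : j ≤ k) : |w i j| ≤ |w i k| := by
  rcases w_cases i j with ⟨a, b⟩ | ⟨a, b⟩ | ⟨a, b⟩ | ⟨a, b⟩ | ⟨a, b⟩ <;>
  rcases w_cases i k with ⟨c, d⟩ | ⟨c, d⟩ | ⟨c, d⟩ | ⟨c, d⟩ | ⟨c, d⟩ <;>
  first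
    | (exfalso; omega)
    | (rw [b, d]; norm_num)
    | (rw [b, d])

theorem w_rigid {n i : ℕ} (hn : i + 4 < n) (y : Fin n → ℚ)
    (h1 : ∀ j : Fin n, w i j = 1 → y j = 1)
    (h2 : ∀ j k l : Fin n, w i j + w i k = w i l → y j + y k = y l) :
    y = fun j : Fin n => w i j := by
  have e0 : y ⟨i, by omega⟩ = 1 := h1 _ (w_le le_rfl)
  have e1 := h2 ⟨i + 1, by omega⟩ ⟨i, by omega⟩ ⟨i + 2, by omega⟩
    (by simp only [w_one, w_two, w_le le_rfl]; norm_num)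
  have e2 := h2 ⟨i + 2, by omega⟩ ⟨i, by omega⟩ ⟨i + 3, by omega⟩
    (by simp only [w_three, w_two, w_le le_rfl]; norm_num)
  have e3 : ∀ j : Fin n, i + 4 ≤ j.val → y ⟨i + 3, by omega⟩ + y ⟨i, by omega⟩ = y j :=
    fun j hj => h2 ⟨i + 3, by omega⟩ ⟨i, by omega⟩ j
      (by simp only [w_three, w_ge hj, w_le le_rfl]; norm_num)
  have e4 := h2 ⟨i + 1, by omega⟩ ⟨i + 1, by omega⟩ ⟨i + 4, by omega⟩
    (by simp only [w_one, w_ge le_rfl]; norm_num)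
  have e5 := e3 ⟨i + 4, by omega⟩ le_rfl
  funext j
  rcases w_cases i j with ⟨a, b⟩ | ⟨a, b⟩ | ⟨a, b⟩ | ⟨a, b⟩ | ⟨a, b⟩
  · rw [b]; exact h1 j b
  · have : j = ⟨i + 1, by omega⟩ := Fin.ext a
    rw [b, this]; linarith
  · have : j = ⟨i + 2, by omega⟩ := Fin.ext a
    rw [b, this]; linarith
  · have : j = ⟨i + 3, by omega⟩ := Fin.ext a
    rw [b, this]; linarith
  · have := e3 j a
    rw [b]; linarith

end Pool.Agent.FS.TopThree
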