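import Pool.Agent.FS.TopThree.Core

namespace Pool.Agent.FS.TopThree

theorem R_exists {u A B C a b c p : ℚ} (h : |p| ≤ u ∨ |p| = A ∨ |p| = B ∨ |p| = C) :
    ∃ d, R u A B C a b c p d := by
  unfold R
  rcases h with h | h | h | h
  · exact ⟨0, Or.inl ⟨(abs_le.mp h).1, (abs_le.mp h).2, rfl⟩⟩
  · rcases le_total 0 p with h0 | h0
    · exact ⟨a, Or.inr (Or.inl ⟨by rw [← h, abs_of_nonneg h0], rfl⟩)⟩
    · exact ⟨-a, Or.inr (Or.inr (Or.inl ⟨by rw [← h, abs_of_nonpos h0, neg_neg], rfl⟩))⟩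
  · rcases le_total 0 p with h0 | h0
    · exact ⟨b, Or.inr (Or.inr (Or.inr (Or.inl ⟨by rw [← h, abs_of_nonneg h0], rfl⟩)))⟩
    · exact ⟨-b, Or.inr (Or.inr (Or.inr (Or.inr (Or.inl
        ⟨by rw [← h, abs_of_nonpos h0, neg_neg], rfl⟩))))⟩
  · rcases le_total 0 p with h0 | h0
    · exact ⟨c, Or.inr (Or.inr (Or.inr (Or.inr (Or.inr (Or.inl
        ⟨by rw [← h, abs_of_nonneg h0], rfl⟩)))))⟩
    · exact ⟨-c, Or.inr (Or.inr (Or.inr (Or.inr (Or.inr (Or.inr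
        ⟨by rw [← h, abs_of_nonpos h0, neg_neg], rfl⟩)))))⟩

theorem R_one {u A B C a b c d : ℚ} (hu : 1 ≤ u) (hA : 2 * u < A) (hAB : A ≤ B) (hBC : B ≤ C)
    (h : R u A B C a b c 1 d) : d = 0 := by
  rcases h with ⟨p1, p2, hd⟩ | ⟨p1, hd⟩ | ⟨p1, hd⟩ | ⟨p1, hd⟩ | ⟨p1, hd⟩ | ⟨p1, hd⟩ | ⟨p1, hd⟩ <;>
  linarith

theorem R_zero {u A B C a b c p : ℚ} (ha : 0 < a) (hb : 0 < b) (hc : 0 < c)
    (h : R u A B C a b c p 0) : |p| ≤ u := by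
  rcases h with ⟨p1, p2, hd⟩ | ⟨p1, hd⟩ | ⟨p1, hd⟩ | ⟨p1, hd⟩ | ⟨p1, hd⟩ | ⟨p1, hd⟩ | ⟨p1, hd⟩
  · exact abs_le.mpr ⟨p1, p2⟩
  all_goals (exfalso; linarith)

theorem pos {n i : ℕ} (hi : i + 1 < n) (hn : n ≤ i + 4) (x : Fin n → ℚ)
    (hr : ∀ y : Fin n → ℚ, (∀ j, x j = 1 → y j = 1) →
      (∀ j k l, x j + x k = x l → y j + y k = y l) → y = x)
    (hs : ∀ j k, j ≤ k → |x j| ≤ |x k|) (h1 : 1 ≤ |x ⟨i, by omega⟩|) :
    |x ⟨i + 1, hi⟩| ≤ 2 * |x ⟨i, by omega⟩| := by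
  by_contra hc
  have hA : 2 * |x ⟨i, by omega⟩| < |x ⟨i + 1, hi⟩| := not_le.mp hc
  have hAB : |x ⟨i + 1, hi⟩| ≤ |x ⟨min (i + 2) (n - 1), by omega⟩| :=
    hs _ _ (by simp only [Fin.mk_le_mk]; omega)
  have hBC : |x ⟨min (i + 2) (n - 1), by omega⟩| ≤ |x ⟨n - 1, by omega⟩| :=
    hs _ _ (by simp only [Fin.mk_le_mk]; omega)
  obtain ⟨a, b, c, ha, hb, hc', H⟩ := core (lt_of_lt_of_le one_pos h1) hA hAB hBC
  have hex : ∀ j : Fin n, ∃ d, R |x ⟨i, by omega⟩| |x ⟨i + 1, hi⟩|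
      |x ⟨min (i + 2) (n - 1), by omega⟩| |x ⟨n - 1, by omega⟩| a b c (x j) d := by
    intro j
    apply R_exists
    have hj := j.isLt
    rcases (by omega : j.val ≤ i ∨ j.val = i + 1 ∨ j.val = min (i + 2) (n - 1) ∨ j.val = n - 1)
      with h | h | h | h
    · exact Or.inl (hs _ _ (Fin.le_def.mpr h))
    · exact Or.inr (Or.inl (by rw [show j = ⟨i + 1, hi⟩ from Fin.ext h]))
    · exact Or.inr (Or.inr (Or.inl (congrArg (fun t => |x t|) (Fin.ext h))))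
    · exact Or.inr (Or.inr (Or.inr (congrArg (fun t => |x t|) (Fin.ext h))))
  choose d hd using hex
  have hy := hr (fun j => x j + d j)
    (fun j hj => by
      have h := hd j
      rw [hj] at h
      rw [hj, R_one h1 hA hAB hBC h, add_zero])
    (fun j k l h => by
      have := H _ _ _ _ _ _ (hd j) (hd k) (hd l) h
      linarith)
  have h0 : d ⟨i + 1, hi⟩ = 0 := by
    have := congrFun hy ⟨i + 1, hi⟩
    simpa using this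
  have h := hd ⟨i + 1, hi⟩
  rw [h0] at h
  have := R_zero ha hb hc' h
  linarith

end Pool.Agent.FS.TopThree
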